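import Pool.Agent.Y361.SL.Beside

/-!
# Virtual braids embed into virtual tangles

The diagrams are those of `Pool.Agent.H297R3.SL.Defs` (Gauss diagrams, so that the virtual moves
change nothing). A tangle diagram with `n` incoming and `n` outgoing end points
(`Pool.Agent.Y361.SL.IsTangle`) may join the end points in any way and may have closed components;
`vT n` is the set of these diagrams modulo the generalized Reidemeister moves.

1. If the diagram of a virtual braid word `w` (pure or not) with an arbitrary tangle `T` beside it
   and the diagram of `w'` with an arbitrary tangle `T'` beside it are equivalent as tangles, then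
   `w` and `w'` represent the same element of the virtual braid group `vB_n`.
2. In particular `vB_n → vT_n` is injective.
3. In particular `vP_n → vSL_n` is injective (the question).
-/

set_option autoImplicit false

namespace Pool.Agent.Results.MP_e4304e_gt.BraidsInTangles

open Pool.Agent.Helper718.VB
open Pool.Agent.H297R3.SL
open Pool.Agent.Y361.SL

/-- Virtual braids are determined by the virtual tangles which they represent, even after
arbitrary tangles have been put beside them; in particular `vB_n → vT_n` and
`vP_n → vSL_n` are injective. -/
theorem result :
    (∀ (n m : ℕ) (w w' : List (Letter n)) (T T' : TangleDiagram m),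
      (Quot.mk _ (besideT (braidTangle w) T) : vT (n + m)) =
        Quot.mk _ (besideT (braidTangle w') T') → toVB w = toVB w') ∧
    (∀ (n : ℕ) (w w' : List (Letter n)),
      (Quot.mk _ (braidTangle w) : vT n) = Quot.mk _ (braidTangle w') → toVB w = toVB w') ∧
    (∀ (n : ℕ) (w w' : List (Letter n)) (hw : toVB w ∈ vP n) (hw' : toVB w' ∈ vP n),
      (Quot.mk _ ⟨braidDiagram w, braid_isStringLink w hw⟩ : vSL n) =
        Quot.mk _ ⟨braidDiagram w', braid_isStringLink w' hw'⟩ → toVB w = toVB w') :=
  ⟨fun _ _ => braid_of_beside, fun _ => braid_of_tangle,
    fun _ w w' _ _ h => braid_of_tangle w w' (congrArg toTangle h)⟩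

end Pool.Agent.Results.MP_e4304e_gt.BraidsInTangles
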